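import Mathlib
import Pool.Agent.W_MP_28567f_al.PGroup

/-!
# MP_28567f_al: the families of finite soluble groups with connected graphs

Let `F` be a family of finite soluble groups (a class closed under isomorphism).  The criterion
(`Criterion F`) says: every non-trivial 2-generated finite soluble group `G` outside `F` is
non-cyclic, and if `G` is tied (`G/G'` is a `p`-group and `G/Φ(G)` has an abelian normal subgroup
of index `p`, for some prime `p`), then there are `z ≠ w` in `G` with `G/⟨z^G⟩` non-cyclic and
`⟨z, w⟩` outside `F`.

The theorem shows:

1. the criterion holds iff `Γ_F(G)` is connected for all finite soluble `G` outside `F`;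
2. the property of Q1 implies the criterion;
3. under the criterion, `Γ_F(G)` is connected for every finite group `G` with `Γ_𝒮(G)` connected;
4. hence, since `𝒮` has the property (known), the property of Q1 is equivalent to the criterion;
5. the criterion holds if `F` contains all finite groups with nilpotent derived subgroup;
6. the criterion implies that `F` contains all non-trivial 2-generated finite `p`-groups.
-/

open Subgroup Pool.Agent.W_MP_28567f_al

theorem Pool.Agent.Results.MP_28567f_al.FamilyCriterion.result
    (F : GroupFamily) (hF : F.Soluble) :
    (Criterion F ↔ ∀ (G : Type) [Group G] [Finite G] [Group.IsSolvable G], ¬ F.mem G →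
      (Gam F G).Preconnected) ∧
    (HasProperty F → Criterion F) ∧
    (Criterion F → ∀ (G : Type) [Group G] [Finite G], (Gam allSoluble G).Preconnected →
      (Gam F G).Preconnected) ∧
    (HasProperty allSoluble → (HasProperty F ↔ Criterion F)) ∧
    ((∀ (G : Type) [Group G] [Finite G], Group.IsNilpotent (commutator G) → F.mem G) →
      Criterion F) ∧
    (Criterion F → ∀ p : ℕ, p.Prime → ∀ (G : Type) [Group G] [Finite G] [Nontrivial G],
      IsPGroup p G → (∃ a b : G, closure {a, b} = (⊤ : Subgroup G)) → F.mem G) := by
  obtain ⟨h1, h2, h3, h4, h5⟩ := main F hF
  refine ⟨h1, h2, h3, h4, h5, ?_⟩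
  intro hC p hp G _ _ _ hG hgen
  exact mem_of_isPGroup hC _ G rfl p hp hG hgen
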